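import Mathlib
import Pool.Agent.H829R3.Strat

set_option autoImplicit false

/-! Runs of the Gowers game whose outcome spans a given sequence; dense sets of reachable vectors. -/

namespace Pool.Agent.Y467.ST

open Pool.Agent.H829R3

variable {F : Type*} [Field F]

/-- The position reached by stepping through the list `l`. -/
noncomputable def posL (α : List (ℕ → (ℕ →₀ F)) → (ℕ →₀ F)) (Q : Set (ℕ → (ℕ →₀ F)))
    (l : List (ℕ →₀ F)) : List (ℕ → (ℕ →₀ F)) := l.foldl (step α Q) []

theorem posL_append {α : List (ℕ → (ℕ →₀ F)) → (ℕ →₀ F)} {Q : Set (ℕ → (ℕ →₀ F))}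
    (l : List (ℕ →₀ F)) (y : ℕ →₀ F) : posL α Q (l ++ [y]) = step α Q (posL α Q l) y := by
  simp only [posL, List.foldl_append, List.foldl_cons, List.foldl_nil]

theorem posL_legal {α : List (ℕ → (ℕ →₀ F)) → (ℕ →₀ F)} {Q : Set (ℕ → (ℕ →₀ F))}
    (l : List (ℕ →₀ F)) : ∀ Y ∈ posL α Q l, Y ∈ Q := by
  induction l using List.reverseRecOn with
  | nil => intro Y hY; simp [posL] at hY
  | append_singleton l y ih =>
    rw [posL_append]
    exact step_legal ih y

theorem run_of_seq {α : List (ℕ → (ℕ →₀ F)) → (ℕ →₀ F)} {Q : Set (ℕ → (ℕ →₀ F))}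
    {U : ℕ → (ℕ →₀ F)} (hU0 : ∀ k, U k ≠ 0)
    (hUD : ∀ k, U k ∈ DPos α Q (posL α Q (List.ofFn (fun i : Fin k => U i.val)))) :
    ∃ Y : ℕ → (ℕ → (ℕ →₀ F)), (∀ k, Y k ∈ Q) ∧
      Submodule.span F (Set.range U) ≤ Submodule.span F (Set.range (play α Y)) := by
  let P : ℕ → List (ℕ → (ℕ →₀ F)) := fun k => posL α Q (List.ofFn (fun i : Fin k => U i.val))
  have hPs : ∀ k, P (k+1) = step α Q (P k) (U k) := by
    intro k
    have h4 : List.ofFn (fun i : Fin (k+1) => U i.val) =
          List.ofFn (fun i : Fin k => U i.val) ++ [U k] := by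
      rw [List.ofFn_succ', List.concat_eq_append]
      rfl
    simp only [P]
    rw [h4, posL_append]
  choose q hq1 hq2 hq3 using fun k => step_spec (hUD k)
  have hPq : ∀ k, P (k+1) = P k ++ q k := fun k => by rw [hPs]; exact hq3 k
  have hqne : ∀ k, q k ≠ [] := by
    intro k h0
    have h1 := hq2 k
    rw [h0] at h1
    have h2 : ∀ p, Resp α p [] = ∅ := by
      intro p
      ext z
      simp [Resp]
    rw [h2, Submodule.span_empty, Submodule.mem_bot] at h1
    exact hU0 k h1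
  have hPlen : ∀ k, k ≤ (P k).length := by
    intro k
    induction k with
    | zero => exact Nat.zero_le _
    | succ k ih =>
      rw [hPq, List.length_append]
      have := List.length_pos_iff.2 (hqne k)
      omega
  have hPpre : ∀ i j, i ≤ j → P i <+: P j := by
    intro i j hij
    induction j, hij using Nat.le_induction with
    | base => exact List.prefix_refl _
    | succ j hij ih =>
      rw [hPq]
      exact ih.trans (List.prefix_append _ _)
  let Y : ℕ → (ℕ → (ℕ →₀ F)) := fun n =>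
    (P (n+1))[n]'(lt_of_lt_of_le (Nat.lt_succ_self n) (hPlen (n+1)))
  have hY : ∀ n j, ∀ hn : n < (P j).length, Y n = (P j)[n] := by
    intro n j hn
    rcases le_total (n+1) j with hle | hle
    · exact (hPpre _ _ hle).getElem _
    · exact ((hPpre _ _ hle).getElem hn).symm
  have hYQ : ∀ k, Y k ∈ Q := fun k => posL_legal _ _ (List.getElem_mem _)
  have hplay : ∀ j n, n < (P j).length → play α Y n = α ((P j).take (n+1)) := by
    intro j n hn
    unfold play
    congr 1
    apply List.ext_getElem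
    · simp; omega
    · intro i h1 h2
      rw [List.getElem_ofFn, List.getElem_take]
      have h3 : i < (P j).length := by
        simp at h1
        omega
      exact hY i j h3
  refine ⟨Y, hYQ, ?_⟩
  rw [Submodule.span_le]
  rintro _ ⟨k, rfl⟩
  have h1 : Submodule.span F (Resp α (P k) (q k)) ≤ Submodule.span F (Set.range (play α Y)) := by
    apply Submodule.span_mono
    rintro z ⟨i, hi, rfl⟩
    refine ⟨(P k).length + i, ?_⟩
    rw [hplay (k+1) ((P k).length + i) (by rw [hPq, List.length_append]; omega), hPq]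
    congr 1
    rw [List.take_append, List.take_of_length_le (by omega)]
    congr 2
    omega
  exact h1 (hq2 k)

/-- Below every block sequence inside `⟨X⟩` there is a block sequence all of whose combinations
are reachable from a given position. -/
theorem dense_step {X : ℕ → (ℕ →₀ F)} {Q : Set (ℕ → (ℕ →₀ F))}
    (hQ : ∀ Y, IsBlock Y → sp Y ⊆ sp X → Y ∈ Q)
    {α : List (ℕ → (ℕ →₀ F)) → (ℕ →₀ F)}
    (hα : ∀ Y : ℕ → (ℕ → (ℕ →₀ F)), (∀ k, Y k ∈ Q) →
      (∀ k, play α Y k ∈ sp (Y k)) ∧ IsBlock (play α Y))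
    {p : List (ℕ → (ℕ →₀ F))} (hp : ∀ Y ∈ p, Y ∈ Q)
    {W : ℕ → (ℕ →₀ F)} (hW : IsBlock W) (hWX : sp W ⊆ sp X) :
    ∃ z : ℕ → (ℕ →₀ F), IsBlock z ∧ sp z ⊆ sp W ∧ sp z ⊆ DPos α Q p := by
  have hWQ : W ∈ Q := hQ W hW hWX
  let Y : ℕ → (ℕ → (ℕ →₀ F)) := fun k => p.getD k W
  have hYQ : ∀ k, Y k ∈ Q := by
    intro k
    by_cases hk : k < p.length
    · have : Y k = p[k] := List.getD_eq_getElem _ _ hk
      rw [this]
      exact hp _ (List.getElem_mem _)
    · have : Y k = W := List.getD_eq_default _ _ (by omega)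
      rw [this]
      exact hWQ
  obtain ⟨h1, h2⟩ := hα Y hYQ
  let z : ℕ → (ℕ →₀ F) := fun n => α (p ++ List.replicate (n+1) W)
  have hz : ∀ n, z n = play α Y (n + p.length) := by
    intro n
    have h3 := ofFn_getD p W n
    have h4 : n + p.length = p.length + n := by omega
    simp only [z, play]
    rw [← h3, h4]
  have hzb : IsBlock z := by
    have h5 := h2.tail p.length
    have : z = fun n => play α Y (n + p.length) := funext hz
    rw [this]
    exact h5
  have hzW : ∀ n, z n ∈ sp W := by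
    intro n
    have h5 := h1 (n + p.length)
    rw [← hz] at h5
    have : Y (n + p.length) = W := List.getD_eq_default _ _ (by omega)
    rwa [this] at h5
  have hzsub : Submodule.span F (Set.range z) ≤ Submodule.span F (Set.range W) := by
    rw [Submodule.span_le]
    rintro _ ⟨n, rfl⟩
    exact (hzW n).1
  refine ⟨z, hzb, ?_, ?_⟩
  · rintro v ⟨hv, hv0⟩
    exact ⟨hzsub hv, hv0⟩
  · rintro v ⟨hv, _⟩
    obtain ⟨c, rfl⟩ := mem_span_iff_lc.1 hv
    refine ⟨List.replicate (c.support.sup id + 1) W, ?_, ?_⟩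
    · intro Y' hY'
      rw [List.eq_of_mem_replicate hY']
      exact hWQ
    · rw [Finsupp.linearCombination_apply, Finsupp.sum]
      apply Submodule.sum_mem
      intro n hn
      apply Submodule.smul_mem
      apply Submodule.subset_span
      have hle : n ≤ c.support.sup id := Finset.le_sup (f := id) hn
      refine ⟨n, by simp; omega, ?_⟩
      rw [List.take_replicate, min_eq_left (by omega)]

/-- The same for finitely many positions at once. -/
theorem dense_list {X : ℕ → (ℕ →₀ F)} {Q : Set (ℕ → (ℕ →₀ F))}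
    (hQ : ∀ Y, IsBlock Y → sp Y ⊆ sp X → Y ∈ Q)
    {α : List (ℕ → (ℕ →₀ F)) → (ℕ →₀ F)}
    (hα : ∀ Y : ℕ → (ℕ → (ℕ →₀ F)), (∀ k, Y k ∈ Q) →
      (∀ k, play α Y k ∈ sp (Y k)) ∧ IsBlock (play α Y))
    (ps : List (List (ℕ → (ℕ →₀ F)))) (hps : ∀ p ∈ ps, ∀ Y ∈ p, Y ∈ Q)
    {W : ℕ → (ℕ →₀ F)} (hW : IsBlock W) (hWX : sp W ⊆ sp X) :
    ∃ z : ℕ → (ℕ →₀ F), IsBlock z ∧ sp z ⊆ sp W ∧ ∀ p ∈ ps, sp z ⊆ DPos α Q p := by
  induction ps with
  | nil => exact ⟨W, hW, subset_rfl, by simp⟩
  | cons p ps ih =>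
    obtain ⟨z, hz, hzW, hzp⟩ := ih (fun p hp => hps p (List.mem_cons_of_mem _ hp))
    obtain ⟨z', hz', hz'z, hz'p⟩ := dense_step hQ hα (hps p List.mem_cons_self) hz
      (hzW.trans hWX)
    refine ⟨z', hz', hz'z.trans hzW, ?_⟩
    intro p' hp'
    rcases List.mem_cons.1 hp' with rfl | hp'
    · exact hz'p
    · exact hz'z.trans (hzp p' hp')

theorem DPos_smul {α : List (ℕ → (ℕ →₀ F)) → (ℕ →₀ F)} {Q : Set (ℕ → (ℕ →₀ F))}
    {p : List (ℕ → (ℕ →₀ F))} {v : ℕ →₀ F} (h : v ∈ DPos α Q p) (c : F) :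
    c • v ∈ DPos α Q p := by
  obtain ⟨q, hq, hv⟩ := h
  exact ⟨q, hq, Submodule.smul_mem _ _ hv⟩

end Pool.Agent.Y467.ST
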